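import Pool.Agent.Q41.RA.Bm

set_option autoImplicit false

/-!
# There is no congruence modulo 2 for 6-regular partitions (MP_72e75e_nt, Q1)

For all `A ≥ 1` and `B ≥ 0` some `b_6(A n + B)` is odd; that is, the negated form of Q1 holds.

Method. Let `D = q ∏ (1 - q ^ n) ^ 24` modulo 2 and `k` the algebraic closure of `F_2`. The vertices
`(z, a)` stand for the series `D(z t ^ a)`. (1) The neighbours of a vertex for an odd prime `ℓ | a` are
`(z ^ ℓ, ℓ a)` and `(y, a / ℓ)`, `y ^ ℓ = z`; by the Hecke operators modulo 2 (starting file
`H307R2/OP`) the power sums of their series are polynomials in the series of `(z, a)`, so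
automorphisms over `K = k(D(t ^ a))` permute them. (2) Some automorphism moves `D(t ^ (ℓ a))`:
otherwise a power of `D(t ^ (ℓ a)) / D(t ^ a)` is in `K` and integral over `k[1 / D(t ^ a)]`, but its
order is positive. (3) Commutators with `t → ξ t` give one automorphism which moves these series for
all primes of a finite set and fixes the parts of `D(t ^ a)` in the classes of exponents modulo
`2 ^ K` (theta functions with characteristics, starting file `TH693/QQ`). (4) It maps
`D(t ^ (n a))` to `D(z t ^ (a / n))` for all products `n` of these primes; its inverse, corrected by a
twist, maps `(1, a / d)` to `(1, d a)` for `d | n`, and it commutes with the projections to the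
classes of exponents modulo `2 ^ K` on all series which are reached. (5) If `b_6(A n + B)` is even for all `n`,
a linear relation between the projections of the series `f_3 ^ 2 / f_1` at the vertices `(ζ ^ i, b)`
holds; the image of the relation has a unique term of smallest order, and `n` can be chosen such that
this term is in the class which is projected to.
-/

namespace Pool.Agent.Results.MP_72e75e_nt.NoCongruence

/-- the number of the partitions of `n` in which no part is divisible by 6 -/
def b6 (n : ℕ) : ℕ :=
  ((Finset.univ : Finset (Nat.Partition n)).filter fun P => ∀ i ∈ P.parts, ¬ 6 ∣ i).card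

theorem result (A B : ℕ) (hA : 1 ≤ A) : ∃ n : ℕ, Odd (b6 (A * n + B)) :=
  Pool.Agent.Q41.RA.regular_odd 1 3 le_rfl (by decide) (by norm_num) A B hA

end Pool.Agent.Results.MP_72e75e_nt.NoCongruence
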